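import Pool.Agent.H5.EG.Spec2

/-!
# MP_98cfca_co, Q1: the statement `S_step` from `S_gap` and `S_core`
-/

set_option autoImplicit false

namespace Pool.Agent.H154.EG

open PowerSeries Pool.Agent.H5.EG

/-- Reindexing of a finite set by `Fin`. -/
theorem sum_fin {ι : Type} (T : Finset ι) (g : ι → ℂ) :
    ∑ t ∈ T, g t = ∑ j : Fin T.card, g (T.equivFin.symm j : ι) := by
  rw [← Finset.sum_coe_sort T]
  exact (Equiv.sum_comp T.equivFin.symm (fun t : T => g t)).symm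

theorem rep_mono {ι : Type} {f : ι → ℕ → ℂ} {W : ℕ → ℂ} {T : Finset ι} {n m : ℕ} (h : n ≤ m)
    (hR : Rep f W T m) : Rep f W T n := by
  obtain ⟨c, hc⟩ := hR
  exact ⟨c, fun k hk => hc k (lt_of_lt_of_le hk h)⟩

theorem step (h1 : S_gap) (h2 : S_core) : S_step := by
  classical
  intro B
  obtain ⟨L0, hL⟩ := h2 B (2 * (6 ^ (B + 1)) ^ 2)
  refine ⟨max L0 1, fun Λ hΛ0 F W T n₀ S hW hG hn hS1 hS2 hR hm => ?_⟩
  have hΛ : L0 ≤ Λ := le_trans (le_max_left _ _) hΛ0
  have hΛ1 : 1 ≤ Λ := le_trans (le_max_right _ _) hΛ0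
  have hn1 : 1 ≤ n₀ := le_trans (Nat.one_le_pow _ _ hΛ1) hn
  have hn1' : (1 : ℝ) ≤ (n₀ : ℝ) := by exact_mod_cast hn1
  have hmono : Monotone fun j : ℕ => n₀ ^ (6 ^ j) := by
    intro j k hjk
    exact Nat.pow_le_pow_right hn1 (Nat.pow_le_pow_right (by norm_num) hjk)
  have hTc : T.card ≤ B := by
    have := Finset.card_le_univ T
    rwa [Fintype.card_fin] at this
  have hfl : n₀ ^ (6 ^ (B + 1)) ≤ ⌊S⌋₊ := by
    apply Nat.le_floor
    push_cast
    exact hS1
  obtain ⟨i, hi, T', hT', hI, c, hc0, hc⟩ := h1 (Fin B) (fun t k => cf (F t).f k) (cf W) T B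
    (fun j => n₀ ^ (6 ^ j)) hTc hmono (rep_mono hfl hR)
  have hX6 : (n₀ ^ (6 ^ i)) ^ 6 = n₀ ^ (6 ^ (i + 1)) := by
    rw [← pow_mul, ← pow_succ]
  have hX0 : n₀ ≤ n₀ ^ (6 ^ i) := by
    calc n₀ = n₀ ^ (6 ^ 0) := by simp
      _ ≤ n₀ ^ (6 ^ i) := hmono (Nat.zero_le i)
  have hX1 : (1 : ℝ) ≤ ((n₀ ^ (6 ^ i) : ℕ) : ℝ) := by
    exact_mod_cast le_trans hn1 hX0
  have hb1 : 1 ≤ T'.card := by
    by_contra hcon
    have hT0 : T' = ∅ := by
      rw [← Finset.card_eq_zero]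
      omega
    have h0 := hc 0 (lt_of_lt_of_le Nat.zero_lt_one (Nat.one_le_pow _ _ hn1))
    rw [hT0, Finset.sum_empty] at h0
    have hW0 : PowerSeries.coeff 0 W = 1 := by
      rw [PowerSeries.coeff_zero_eq_constantCoeff_apply]
      exact hW
    unfold cf at h0
    rw [hW0] at h0
    norm_num at h0
  have hbB : T'.card ≤ B := le_trans (Finset.card_le_card hT') hTc
  have key := hL Λ hΛ T'.card (fun j => F (T'.equivFin.symm j : Fin B)) W
    (fun j => c (T'.equivFin.symm j : Fin B)) (n₀ ^ (6 ^ i)) S hb1 hbB hW hG (le_trans hn hX0)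
    ?_ ?_ ?_ ?_ ?_ ?_
  · refine ⟨n₀ ^ (6 ^ i), hX0, hmono hi, T', hT', hI, ?_, ?_⟩
    · refine ⟨c, fun k hk => ?_⟩
      rw [hX6] at hk
      exact hc k hk
    · intro t ht
      have h3 := key (T'.equivFin ⟨t, ht⟩)
      have e : ((T'.equivFin.symm (T'.equivFin ⟨t, ht⟩) : T') : Fin B) = t := by
        rw [Equiv.symm_apply_apply]
      simp only [e] at h3
      exact h3
  · refine le_trans ?_ hS1
    have h3 : (n₀ ^ (6 ^ i)) ^ 6 ≤ n₀ ^ (6 ^ (B + 1)) := by
      rw [hX6]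
      exact hmono (Nat.succ_le_succ hi)
    exact_mod_cast h3
  · refine le_trans hS2 ?_
    apply pow_le_pow_left₀ (by positivity)
    exact_mod_cast hX0
  · intro j
    exact hc0 _ (T'.equivFin.symm j).2
  · intro k hk
    rw [hX6] at hk
    rw [hc k hk, sum_fin]
  · intro d hd j
    have h3 := hI (fun t => if h : t ∈ T' then d (T'.equivFin ⟨t, h⟩) else 0) ?_
      (T'.equivFin.symm j : Fin B) (T'.equivFin.symm j).2
    · have e : (T'.equivFin.symm j : Fin B) ∈ T' := (T'.equivFin.symm j).2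
      simp only [e, dif_pos] at h3
      have e2 : T'.equivFin ⟨(T'.equivFin.symm j : Fin B), e⟩ = j := by
        rw [Subtype.coe_eta, Equiv.apply_symm_apply]
      rwa [e2] at h3
    · intro k hk
      rw [sum_fin]
      rw [← hd k hk]
      refine Finset.sum_congr rfl fun l _ => ?_
      have e : (T'.equivFin.symm l : Fin B) ∈ T' := (T'.equivFin.symm l).2
      have e2 : T'.equivFin ⟨(T'.equivFin.symm l : Fin B), e⟩ = l := by
        rw [Subtype.coe_eta, Equiv.apply_symm_apply]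
      simp only [e, dif_pos, e2]
  · intro j
    exact hm _ (hT' (T'.equivFin.symm j).2)

end Pool.Agent.H154.EG
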